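import Pool.Agent.H31.FanO

open Pool.Agent.H31.Fan

theorem Pool.Agent.Results.MP_d55beb_gt.Neg.result :
    (∃ f : (ℕ → S2) → ℝ, ¬ Continuous f ∧ ∀ K, IsCompact K → ContinuousOn f K) ∧
    (∃ f : (ℕ → Sw) → ℝ, ¬ Continuous f ∧ ∀ K, IsCompact K → ContinuousOn f K) :=
  ⟨s2, sw⟩
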